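import Pool.Agent.Q278.UD

set_option autoImplicit false

namespace Pool.Agent.Results.MP_91ed4c_nt.Unbounded

open PowerSeries Finset

/-- `(q;q)_∞`: the coefficient of `q^n` is that of `∏_{1 ≤ j ≤ n+1} (1 - q^j)` -/
noncomputable def eta : PowerSeries ℤ :=
  PowerSeries.mk fun n => coeff n (∏ j ∈ range (n + 1), (1 - (X : PowerSeries ℤ) ^ (j + 1)))

/-- the `m`-th term `q^{2m} (-q;q)_{2m} / (q;q^2)_{m+1}` of `T_o` -/
noncomputable def term (m : ℕ) : PowerSeries ℤ :=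
  X ^ (2 * m) * (∏ j ∈ range (2 * m), (1 + (X : PowerSeries ℤ) ^ (j + 1))) *
    invOfUnit (∏ j ∈ range (m + 1), (1 - (X : PowerSeries ℤ) ^ (2 * j + 1))) 1

/-- `T_o(q) = ∑_m term m`: as `q^{2m}` divides `term m`, the coefficient of `q^n` only
sees the terms with `m ≤ n` -/
noncomputable def To : PowerSeries ℤ :=
  PowerSeries.mk fun n => coeff n (∑ m ∈ range (n + 1), term m)

/-- the coefficients of `C(q) = (q;q)_∞ T_o(q)` -/
noncomputable def c (n : ℕ) : ℤ := coeff n (eta * To)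

theorem To_eq : To = Q278.UR3.To := rfl

theorem eta_eq : eta = Q278.UR.Eu 0 := by
  ext n
  unfold eta
  rw [coeff_mk, Q278.UR.Eu_prod (n + 1)]
  obtain ⟨b, hb⟩ := Q278.UR.Eu_near (n + 1)
  have e : Q278.UR.Eu (n + 1) = 1 + X ^ (n + 1) * b := by rw [← hb]; ring
  rw [e]
  have h : (X : PowerSeries ℤ) ^ (n + 1) ∣ Q278.UR.pp (-1) 0 (n + 1) * (1 + X ^ (n + 1) * b) -
      ∏ j ∈ range (n + 1), (1 - (X : PowerSeries ℤ) ^ (j + 1)) := by
    have e2 : Q278.UR.pp (-1) 0 (n + 1) =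
        ∏ j ∈ range (n + 1), (1 - (X : PowerSeries ℤ) ^ (j + 1)) := by
      unfold Q278.UR.pp
      apply prod_congr rfl
      intro i _
      push_cast
      ring
    rw [e2]
    exact ⟨(∏ j ∈ range (n + 1), (1 - (X : PowerSeries ℤ) ^ (j + 1))) * b, by ring⟩
  have := X_pow_dvd_iff.1 h n (Nat.lt_succ_self n)
  rw [map_sub, sub_eq_zero] at this
  exact this.symm

/-- twice the coefficient is a signed count of representations by `u^2+3v^2` -/
theorem two_c (n : ℕ) : 2 * c n = Q278.UC.WS (6 * n + 7) := by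
  have h := Q278.UC2.coef (n + 1)
  rw [coeff_succ_X_mul, ← To_eq, ← eta_eq] at h
  rw [show 6 * n + 7 = 6 * (n + 1) + 1 by ring]
  exact h

theorem c25 (n : ℕ) : c (25 * n + 28) = -c n := by
  have h1 := two_c (25 * n + 28)
  have h2 := two_c n
  rw [show 6 * (25 * n + 28) + 7 = 25 * (6 * n + 7) by ring, Q278.UD.WS25] at h1
  omega

theorem big (M : ℤ) : ∃ n, M < |c n| := by
  obtain ⟨m, hm⟩ := Q278.UB.unb (2 * |M|)
  have hM := abs_nonneg M
  have hM2 := le_abs_self M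
  rcases m with _ | m
  · exfalso
    unfold Q278.UB.S at hm
    simp only [sum_range_zero, abs_zero] at hm
    omega
  · obtain ⟨t, ht⟩ : ∃ t, 49 ^ m = 48 * t + 1 := by
      clear hm
      induction m with
      | zero => exact ⟨0, rfl⟩
      | succ m ih =>
        obtain ⟨t, ht⟩ := ih
        exact ⟨49 * t + 1, by rw [pow_succ, ht]; ring⟩
    refine ⟨56 * t, ?_⟩
    have h1 := two_c (56 * t)
    have e : 6 * (56 * t) + 7 = 7 ^ (2 * m + 1) := by
      rw [pow_succ, pow_mul]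
      norm_num
      rw [ht]; ring
    rw [e, Q278.UD.WS7] at h1
    rw [← h1, abs_mul] at hm
    norm_num at hm
    omega

/-- the coefficients are unbounded above and below -/
theorem result : (∀ M : ℤ, ∃ n : ℕ, c n > M) ∧ (∀ M : ℤ, ∃ n : ℕ, c n < -M) := by
  have key : ∀ M : ℤ, (∃ n : ℕ, c n > M) ∧ (∃ n : ℕ, c n < -M) := by
    intro M
    obtain ⟨n, hn⟩ := big M
    have h := c25 n
    rcases abs_cases (c n) with ⟨a, b⟩ | ⟨a, b⟩
    · exact ⟨⟨n, by omega⟩, ⟨25 * n + 28, by omega⟩⟩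
    · exact ⟨⟨25 * n + 28, by omega⟩, ⟨n, by omega⟩⟩
  exact ⟨fun M => (key M).1, fun M => (key M).2⟩

end Pool.Agent.Results.MP_91ed4c_nt.Unbounded
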